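import Mathlib

set_option autoImplicit false

namespace Pool.Agent.Results.MP_dba3a1_an.NotFull

/-- `IsRann S e`: `e` is a projection (`e = e* = e²`) and the right annihilator
`{y | x y = 0 for all x in S}` equals `e M`. -/
def IsRann {M : Type} [Mul M] [Zero M] [Star M] (S : Set M) (e : M) : Prop :=
  e * e = e ∧ star e = e ∧ ∀ y : M, (∀ x ∈ S, x * y = 0) ↔ ∃ z : M, y = e * z

/-- Every subset has an annihilating projection. For a unital C*-algebra this is the definition
of an AW*-algebra; for a semigroup with zero and involution it is the definition of a Baer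
*-semigroup. -/
def HasRann (M : Type) [Mul M] [Zero M] [Star M] : Prop := ∀ S : Set M, ∃ e : M, IsRann S e

/-- Morphisms of Baer *-semigroups: multiplicative *-preserving maps that preserve annihilating
projections. -/
structure BaerHom (M N : Type) [Mul M] [Zero M] [Star M] [Mul N] [Zero N] [Star N] where
  /-- the underlying map -/
  toFun : M → N
  map_mul : ∀ x y, toFun (x * y) = toFun x * toFun y
  map_star : ∀ x, toFun (star x) = star (toFun x)
  map_rann : ∀ (S : Set M) (e : M), IsRann S e → IsRann (toFun '' S) (toFun e)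

/-- Morphisms of AW*-algebras: unital complex-linear *-homomorphisms that preserve annihilating
projections. -/
structure AWHom (A B : Type) [CStarAlgebra A] [CStarAlgebra B] where
  /-- the underlying *-homomorphism -/
  hom : A →⋆ₐ[ℂ] B
  map_rann : ∀ (S : Set A) (e : A), IsRann S e → IsRann (hom '' S) (hom e)

/-- The multiplicative submonoid `P(A)` of `A` generated by the projections of `A`. -/
def projMonoid (A : Type) [CStarAlgebra A] : Submonoid A :=
  Submonoid.closure {p : A | p * p = p ∧ star p = p}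

section projMonoid

variable {A : Type} [CStarAlgebra A]

lemma proj_mem {p : A} (hp : p * p = p) (hs : star p = p) : p ∈ projMonoid A :=
  Submonoid.subset_closure ⟨hp, hs⟩

lemma zero_mem' : (0 : A) ∈ projMonoid A := proj_mem (mul_zero 0) (star_zero A)

lemma star_mem' {x : A} (hx : x ∈ projMonoid A) : star x ∈ projMonoid A := by
  induction hx using Submonoid.closure_induction with
  | mem p hp =>
    rw [hp.2]
    exact proj_mem hp.1 hp.2
  | one => simp
  | mul x y _ _ hx hy =>
    rw [star_mul]
    exact (projMonoid A).mul_mem hy hx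

/-- The zero of `A` is an element of `P(A)`. -/
instance : Zero (projMonoid A) := ⟨⟨0, zero_mem'⟩⟩

/-- The involution of `A` restricts to `P(A)`. -/
instance : Star (projMonoid A) := ⟨fun x => ⟨star (x : A), star_mem' x.2⟩⟩

@[simp] lemma coe_zero' : ((0 : projMonoid A) : A) = 0 := rfl

@[simp] lemma coe_star' (x : projMonoid A) : ((star x : projMonoid A) : A) = star (x : A) := rfl

@[simp] lemma coe_mul' (x y : projMonoid A) : ((x * y : projMonoid A) : A) = (x : A) * y := rfl

lemma isRann_of_coe {S : Set (projMonoid A)} {e : projMonoid A}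
    (h : IsRann ((fun x : projMonoid A => (x : A)) '' S) (e : A)) : IsRann S e := by
  obtain ⟨h1, h2, h3⟩ := h
  refine ⟨Subtype.ext h1, Subtype.ext h2, fun y => ⟨fun hy => ?_, ?_⟩⟩
  · obtain ⟨z, hz⟩ := (h3 (y : A)).1 (by
      rintro _ ⟨x, hx, rfl⟩
      exact congrArg Subtype.val (hy x hx))
    refine ⟨y, Subtype.ext ?_⟩
    rw [coe_mul']
    nth_rw 2 [hz]
    rw [← mul_assoc, h1]
    exact hz
  · rintro ⟨z, rfl⟩ x hx
    have h4 : (x : A) * ((e : A) * (z : A)) = 0 :=
      (h3 ((e : A) * (z : A))).2 ⟨_, rfl⟩ (x : A) ⟨x, hx, rfl⟩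
    exact Subtype.ext h4

/-- `P(A)` is a Baer *-semigroup. -/
lemma hasRann_projMonoid (hA : HasRann A) : HasRann (projMonoid A) := by
  intro S
  obtain ⟨f, hf⟩ := hA ((fun x : projMonoid A => (x : A)) '' S)
  exact ⟨⟨f, proj_mem hf.1 hf.2.1⟩, isRann_of_coe hf⟩

end projMonoid

section Hilbert

variable {H : Type} [NormedAddCommGroup H] [InnerProductSpace ℂ H] [CompleteSpace H]

/-- `B(H)` is an AW*-algebra. -/
lemma hasRann_hilbert : HasRann (H →L[ℂ] H) := by
  intro S
  let K : Submodule ℂ H := ⨅ x ∈ S, LinearMap.ker (x : H →ₗ[ℂ] H)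
  have hmem : ∀ v : H, v ∈ K ↔ ∀ x ∈ S, x v = 0 := by
    intro v
    simp only [K, Submodule.mem_iInf, LinearMap.mem_ker, ContinuousLinearMap.coe_coe]
  have hK : IsClosed (K : Set H) := by
    have : (K : Set H) = ⋂ x ∈ S, {v : H | x v = 0} := by
      ext v
      simp only [SetLike.mem_coe, hmem, Set.mem_iInter, Set.mem_ofPred_eq]
    rw [this]
    exact isClosed_biInter fun x _ => isClosed_eq x.continuous continuous_const
  have : CompleteSpace K := hK.completeSpace_coe
  have hpr : IsStarProjection K.starProjection := isStarProjection_starProjection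
  refine ⟨K.starProjection, hpr.isIdempotentElem, hpr.isSelfAdjoint, fun y => ?_⟩
  constructor
  · intro hy
    refine ⟨y, ?_⟩
    ext v
    have hv : y v ∈ K := (hmem _).2 fun x hx => by
      have := congrArg (fun z : H →L[ℂ] H => z v) (hy x hx)
      simpa using this
    rw [mul_apply_eq_comp]
    exact (Submodule.starProjection_eq_self_iff.2 hv).symm
  · rintro ⟨z, rfl⟩ x hx
    ext v
    have hv : K.starProjection (z v) ∈ K := Submodule.starProjection_apply_mem K _
    simpa using (hmem _).1 hv x hx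

end Hilbert

/-- transfer of the annihilator condition along a multiplicative *-equivalence -/
lemma isRann_transfer {M N : Type} [Mul M] [Zero M] [Star M]
    [Mul N] [Zero N] [Star N] (f : M → N) (g : N → M)
    (hfg : ∀ y, f (g y) = y) (hgf : ∀ x, g (f x) = x)
    (hmul : ∀ x y, f (x * y) = f x * f y) (hstar : ∀ x, f (star x) = star (f x))
    (h0 : f 0 = 0) {S : Set M} {e : M} (h : IsRann S e) : IsRann (f '' S) (f e) := by
  obtain ⟨h1, h2, h3⟩ := h
  refine ⟨by rw [← hmul, h1], by rw [← hstar, h2], fun y => ⟨fun hy => ?_, ?_⟩⟩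
  · obtain ⟨z, hz⟩ := (h3 (g y)).1 (by
      intro x hx
      have h4 := hy (f x) ⟨x, hx, rfl⟩
      have h5 : f (x * g y) = f 0 := by rw [hmul, hfg, h4, h0]
      have h6 := congrArg g h5
      rwa [hgf, hgf] at h6)
    refine ⟨f z, ?_⟩
    rw [← hmul, ← hz, hfg]
  · rintro ⟨z, rfl⟩ _ ⟨x, hx, rfl⟩
    have h4 := congrArg f ((h3 (e * g z)).2 ⟨g z, rfl⟩ x hx)
    rw [hmul, hmul, hfg, h0] at h4
    exact h4

open scoped Matrix.Norms.L2Operator

/-- The `2 × 2` complex matrices. -/
abbrev M2 := Matrix (Fin 2) (Fin 2) ℂ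

lemma hasRann_M2 : HasRann M2 := by
  intro S
  let Φ := Matrix.toEuclideanCLM (n := Fin 2) (𝕜 := ℂ)
  obtain ⟨e, he⟩ := hasRann_hilbert (Φ '' S)
  refine ⟨Φ.symm e, ?_⟩
  have h := isRann_transfer (fun x => Φ.symm x) (fun x => Φ x) (fun y => Φ.symm_apply_apply y)
    (fun x => Φ.apply_symm_apply x) (fun x y => map_mul Φ.symm x y) (fun x => Φ.symm.map_star' x)
    (map_zero Φ.symm) he
  have e1 : (fun x => Φ.symm x) '' (Φ '' S) = S := by
    rw [Set.image_image]
    simp
  rw [e1] at h
  exact h

/-- Entrywise complex conjugation. -/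
noncomputable def conjM (x : M2) : M2 := x.map (starRingEnd ℂ)

lemma conjM_mul (x y : M2) : conjM (x * y) = conjM x * conjM y := Matrix.map_mul

lemma conjM_star (x : M2) : conjM (star x) = star (conjM x) := by
  ext i j
  simp [conjM, Matrix.star_apply]

lemma conjM_conjM (x : M2) : conjM (conjM x) = x := by
  ext i j
  simp [conjM]

lemma conjM_one : conjM 1 = 1 := by
  ext i j
  simp [conjM, Matrix.one_apply, apply_ite]

lemma conjM_mem {x : M2} (hx : x ∈ projMonoid M2) : conjM x ∈ projMonoid M2 := by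
  induction hx using Submonoid.closure_induction with
  | mem p hp =>
    refine proj_mem ?_ ?_
    · rw [← conjM_mul, hp.1]
    · rw [← conjM_star, hp.2]
  | one => rw [conjM_one]; exact (projMonoid M2).one_mem
  | mul x y _ _ hx hy =>
    rw [conjM_mul]
    exact (projMonoid M2).mul_mem hx hy

/-- Entrywise complex conjugation as a morphism of Baer *-semigroups `P(M₂(ℂ)) → P(M₂(ℂ))`. -/
noncomputable def conjHom : BaerHom (projMonoid M2) (projMonoid M2) where
  toFun x := ⟨conjM x.1, conjM_mem x.2⟩
  map_mul x y := Subtype.ext (conjM_mul x.1 y.1)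
  map_star x := Subtype.ext (conjM_star x.1)
  map_rann S e h := isRann_transfer
    (fun x : projMonoid M2 => (⟨conjM x.1, conjM_mem x.2⟩ : projMonoid M2))
    (fun x : projMonoid M2 => (⟨conjM x.1, conjM_mem x.2⟩ : projMonoid M2))
    (fun y => Subtype.ext (conjM_conjM y.1)) (fun y => Subtype.ext (conjM_conjM y.1))
    (fun x y => Subtype.ext (conjM_mul x.1 y.1)) (fun x => Subtype.ext (conjM_star x.1))
    (Subtype.ext (by ext i j; simp [conjM])) h

/-- projection onto `(1, 0)` -/
noncomputable def p1 : M2 := !![1, 0; 0, 0]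

/-- projection onto `(1, 1)` -/
noncomputable def p2 : M2 := !![1 / 2, 1 / 2; 1 / 2, 1 / 2]

/-- projection onto `(1, i)` -/
noncomputable def p3 : M2 := !![1 / 2, -(Complex.I / 2); Complex.I / 2, 1 / 2]

lemma p1_mem : p1 ∈ projMonoid M2 := by
  refine proj_mem ?_ ?_
  · ext i j; fin_cases i <;> fin_cases j <;> simp [p1]
  · ext i j; fin_cases i <;> fin_cases j <;> simp [p1, Matrix.star_apply]

lemma p2_mem : p2 ∈ projMonoid M2 := by
  refine proj_mem ?_ ?_
  · ext i j
    fin_cases i <;> fin_cases j <;> simp [p2] <;> norm_num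
  · ext i j; fin_cases i <;> fin_cases j <;> simp [p2, Matrix.star_apply]

lemma p3_mem : p3 ∈ projMonoid M2 := by
  refine proj_mem ?_ ?_
  · ext i j
    fin_cases i <;> fin_cases j <;> simp [p3] <;> ring_nf <;> simp <;> norm_num
  · ext i j; fin_cases i <;> fin_cases j <;> simp [p3, Matrix.star_apply, neg_div]

lemma prod_eq : p1 * p2 * p3 * p1 = ((1 + Complex.I) / 4) • p1 := by
  ext i j
  fin_cases i <;> fin_cases j <;> simp [p1, p2, p3]
  ring

/-- There are AW*-algebras `A`, `B` and a morphism of Baer *-semigroups `P(A) → P(B)` that is not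
the restriction of any morphism of AW*-algebras `A → B`. -/
theorem result :
    ∃ (A B : Type) (_ : CStarAlgebra A) (_ : CStarAlgebra B),
      HasRann A ∧ HasRann B ∧ HasRann (projMonoid A) ∧ HasRann (projMonoid B) ∧
      ∃ φ : BaerHom (projMonoid A) (projMonoid B),
        ¬ ∃ f : AWHom A B, ∀ x : projMonoid A, f.hom (x : A) = (φ.toFun x : B) := by
  refine ⟨M2, M2, inferInstance, inferInstance, hasRann_M2, hasRann_M2,
    hasRann_projMonoid hasRann_M2, hasRann_projMonoid hasRann_M2, conjHom, ?_⟩
  rintro ⟨f, hf⟩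
  have key : ∀ x : M2, x ∈ projMonoid M2 → (f.hom : M2 → M2) x = conjM x :=
    fun x hx => hf ⟨x, hx⟩
  have h1 := key _ ((projMonoid M2).mul_mem ((projMonoid M2).mul_mem
    ((projMonoid M2).mul_mem p1_mem p2_mem) p3_mem) p1_mem)
  rw [prod_eq] at h1
  have h2 : (f.hom : M2 → M2) (((1 + Complex.I) / 4) • p1)
      = ((1 + Complex.I) / 4) • (f.hom : M2 → M2) p1 := map_smul f.hom _ p1
  rw [h2, key p1 p1_mem] at h1
  have h3 := congrFun (congrFun h1 0) 0
  have h4 : (((1 + Complex.I) / 4) : ℂ) * 1 = (starRingEnd ℂ) (((1 + Complex.I) / 4) * 1) := by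
    have e1 : (((1 + Complex.I) / 4) • conjM p1) 0 0 = (((1 + Complex.I) / 4) : ℂ) * 1 := by
      simp [conjM, p1, Matrix.map_apply, Matrix.smul_apply]
    have e2 : conjM (((1 + Complex.I) / 4) • p1) 0 0
        = (starRingEnd ℂ) (((1 + Complex.I) / 4) * 1) := by
      simp only [conjM, p1, Matrix.map_apply, Matrix.smul_apply, smul_eq_mul]
      rfl
    exact e1.symm.trans (h3.trans e2)
  have h5 := congrArg Complex.im h4
  rw [Complex.conj_im, mul_one] at h5
  have h6 : ((1 + Complex.I) / 4 : ℂ).im = 1 / 4 := by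
    have : ((1 + Complex.I) / 4 : ℂ) = (1 / 4 : ℝ) + (1 / 4 : ℝ) * Complex.I := by
      push_cast; ring
    rw [this]; simp
  rw [h6] at h5
  norm_num at h5

end Pool.Agent.Results.MP_dba3a1_an.NotFull
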