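import Pool.Agent.Lib.MP_dba3a1_an.RL.Main

set_option autoImplicit false

namespace Pool.Agent.Results.MP_dba3a1_an.RealLinear

open Pool.Agent.Lib.MPdba3a1.RL

universe u v

/-- Every morphism of Baer *-semigroups `P(A) → P(B)` (`A`, `B` AW*-algebras) extends to a
real-linear *-homomorphism `A → B` which preserves annihilating projections, complex linear on
`c B` and conjugate linear on `(1 - c) B`; it is the restriction of a morphism of AW*-algebras iff
it commutes with the multiplication by `i` whenever this is defined. -/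
theorem result (A : Type u) (B : Type v) [CStarAlgebra A] [CStarAlgebra B] (hA : HasRann A)
    (hB : HasRann B) (φ : BaerHom (projMonoid A) (projMonoid B)) :
    (∃ f : A →⋆ₐ[ℝ] B, (∀ x : projMonoid A, f (x : A) = (φ.toFun x : B)) ∧
      (∀ (S : Set A) (e : A), IsRann S e → IsRann (f '' S) (f e)) ∧
      ∃ c : B, c * c = c ∧ star c = c ∧ (∀ x, c * f x = f x * c) ∧
        ∀ (z : ℂ) (x : A),
          f (z • x) = c * (z • f x) + (1 - c) * ((starRingEnd ℂ) z • f x)) ∧
    ((∃ f : A →⋆ₐ[ℂ] B, (∀ x : projMonoid A, f (x : A) = (φ.toFun x : B)) ∧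
      ∀ (S : Set A) (e : A), IsRann S e → IsRann (f '' S) (f e)) ↔
      ∀ x y : projMonoid A, (y : A) = Complex.I • (x : A) →
        (φ.toFun y : B) = Complex.I • (φ.toFun x : B)) :=
  main A B hA hB φ

end Pool.Agent.Results.MP_dba3a1_an.RealLinear
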